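import Pool.Agent.Work.MP_c20ce7_dm77.Inv
import Pool.Agent.Work.MP_c20ce7_dm90.T6
import Pool.Agent.Work.MP_c20ce7_up.B_GOO

set_option autoImplicit false
set_option linter.unusedSectionVars false
set_option linter.unusedSimpArgs false

/-!
# BASE, source side: general lemmas (helper42)

Generated submodules, local nilpotency in simple modules, vectors killed by several functions, equivariance of
submodules, surjectivity of a chart with a polynomial inverse.
-/

open MvPolynomial

noncomputable section

namespace Pool.DM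

section General

variable {σ : Type} [Fintype σ] [DecidableEq σ] {L : Type} [AddCommGroup L] [Module ℂ L]

/-- The submodule generated by `v`. -/
def WMod.gen (W : WMod σ L) (v : L) : Submodule ℂ L := sInf {S | W.Stable S ∧ v ∈ S}

theorem WMod.mem_gen (W : WMod σ L) (v : L) : v ∈ W.gen v := by
  rw [WMod.gen, Submodule.mem_sInf]
  exact fun S hS => hS.2

theorem WMod.gen_le (W : WMod σ L) {v : L} {S : Submodule ℂ L} (hS : W.Stable S) (hv : v ∈ S) :
    W.gen v ≤ S := sInf_le ⟨hS, hv⟩

theorem WMod.gen_stable (W : WMod σ L) (v : L) : W.Stable (W.gen v) := by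
  intro u hu
  rw [WMod.gen, Submodule.mem_sInf] at hu
  refine ⟨fun i => ?_, fun i => ?_⟩
  · rw [WMod.gen, Submodule.mem_sInf]
    exact fun S hS => (hS.1 u (hu S hS)).1 i
  · rw [WMod.gen, Submodule.mem_sInf]
    exact fun S hS => (hS.1 u (hu S hS)).2 i

theorem WMod.gen_ne_bot (W : WMod σ L) {v : L} (hv : v ≠ 0) : W.gen v ≠ ⊥ := by
  intro h
  have h1 := W.mem_gen v
  rw [h, Submodule.mem_bot] at h1
  exact hv h1

theorem locNil_iff (W : WMod σ L) (g : MvPolynomial σ ℂ) :
    LocNil (W.x g) ↔ ∀ u, ∃ k : ℕ, W.x (g ^ k) u = 0 := by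
  refine ⟨fun h u => ?_, fun h u => ?_⟩
  · obtain ⟨k, hk⟩ := h u
    exact ⟨k, by rw [map_pow]; exact hk⟩
  · obtain ⟨k, hk⟩ := h u
    exact ⟨k, by rw [← map_pow]; exact hk⟩

/-- A function which kills the generator is locally nilpotent on every submodule of the generated module. -/
theorem WMod.locNil_of_gen (W : WMod σ L) {v : L} {g : MvPolynomial σ ℂ} (h : W.x g v = 0)
    {S : Submodule ℂ L} (hS : W.Stable S) (hle : S ≤ W.gen v) : LocNil ((W.res S hS).x g) := by
  rw [locNil_iff]
  intro u
  have h1 : W.gen v ≤ W.tors g := W.gen_le (W.tors_stable g) ⟨1, by rw [pow_one]; exact h⟩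
  obtain ⟨k, hk⟩ := h1 (hle u.2)
  exact ⟨k, Subtype.ext hk⟩

theorem WMod.Simple.nontrivial' {W : WMod σ L} (hS : W.Simple) : ∃ u : L, u ≠ 0 := by
  obtain ⟨u, -, hu⟩ := Submodule.exists_mem_ne_zero_of_ne_bot hS.2.1
  exact ⟨u, hu⟩

/-- In a simple module the locally nilpotent functions are a prime ideal. -/
theorem WMod.Simple.locNil_mul {W : WMod σ L} (hS : W.Simple) {f g : MvPolynomial σ ℂ}
    (h : LocNil (W.x (f * g))) : LocNil (W.x f) ∨ LocNil (W.x g) := by
  rcases W.nilp_or_inj hS f with h1 | h1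
  · exact Or.inl ((locNil_iff W f).2 h1)
  · right
    rw [map_mul] at h
    refine LocNil.of_mul_inj ?_ h1 h
    rw [← map_mul, ← map_mul, mul_comm]

theorem WMod.Simple.not_locNil_of_inj {W : WMod σ L} (hS : W.Simple) {f : MvPolynomial σ ℂ}
    (h : Function.Injective (W.x f)) : ¬ LocNil (W.x f) := by
  intro h1
  obtain ⟨u, hu⟩ := hS.nontrivial'
  obtain ⟨k, hk⟩ := h1 u
  rw [← map_pow] at hk
  exact hu (W.x_pow_inj h k (by rw [hk, map_zero]))

/-- Finitely many locally nilpotent functions kill a nonzero vector. -/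
theorem WMod.exists_killed_fin (W : WMod σ L) (T : Finset (MvPolynomial σ ℂ)) :
    (∀ f ∈ T, LocNil (W.x f)) → ∀ u : L, u ≠ 0 → ∃ g : MvPolynomial σ ℂ, W.x g u ≠ 0 ∧
      ∀ f ∈ T, W.x f (W.x g u) = 0 := by
  induction T using Finset.induction_on with
  | empty =>
    intro _ u hu
    exact ⟨1, by rw [map_one]; exact hu, fun f hf => absurd hf (Finset.notMem_empty f)⟩
  | insert a T ha ih =>
    intro hT u hu
    obtain ⟨g, hg, hT'⟩ := ih (fun f hf => hT f (Finset.mem_insert_of_mem hf)) u hu
    have h1 := (locNil_iff W a).1 (hT a (Finset.mem_insert_self a T)) (W.x g u)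
    classical
    have h2 : Nat.find h1 ≠ 0 := by
      intro h3
      have := Nat.find_spec h1
      rw [h3, pow_zero, map_one] at this
      exact hg this
    obtain ⟨m, hm⟩ := Nat.exists_eq_succ_of_ne_zero h2
    have h4 : W.x (a ^ m) (W.x g u) ≠ 0 := Nat.find_min h1 (by omega)
    have h5 : W.x (a ^ (m + 1)) (W.x g u) = 0 := by
      have := Nat.find_spec h1
      rwa [hm] at this
    refine ⟨a ^ m * g, ?_, ?_⟩
    · rw [map_mul, Module.End.mul_apply]
      exact h4
    · intro f hf
      rw [map_mul, Module.End.mul_apply]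
      rcases Finset.mem_insert.1 hf with rfl | hf
      · rw [← Module.End.mul_apply, ← map_mul, ← pow_succ']
        exact h5
      · rw [← Module.End.mul_apply, ← map_mul, mul_comm, map_mul, Module.End.mul_apply, hT' f hf,
          map_zero]

end General

/-! ## Eigenvectors in a stable subspace -/

section Eig

variable {L : Type} [AddCommGroup L] [Module ℂ L]

theorem eig_comp (T : Module.End ℂ L) (S : Submodule ℂ L) (hS : ∀ u ∈ S, T u ∈ S) (F : Finset ℤ) :
    ∀ w : ℤ → L, (∀ n ∈ F, T (w n) = (n : ℂ) • w n) → ∑ n ∈ F, w n ∈ S → ∀ n ∈ F, w n ∈ S := by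
  induction F using Finset.induction_on with
  | empty => intro w _ _ n hn; exact absurd hn (Finset.notMem_empty n)
  | insert m F hm ih =>
    intro w hw hs
    rw [Finset.sum_insert hm] at hs
    have h1 : ∑ n ∈ F, ((n : ℂ) - m) • w n ∈ S := by
      have h2 : T (w m + ∑ n ∈ F, w n) - (m : ℂ) • (w m + ∑ n ∈ F, w n) =
          ∑ n ∈ F, ((n : ℂ) - m) • w n := by
        rw [map_add, map_sum, hw m (Finset.mem_insert_self m F), smul_add, Finset.smul_sum,
          add_sub_add_left_eq_sub, ← Finset.sum_sub_distrib]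
        refine Finset.sum_congr rfl fun n hn => ?_
        rw [hw n (Finset.mem_insert_of_mem hn), sub_smul]
      rw [← h2]
      exact S.sub_mem (hS _ hs) (S.smul_mem _ hs)
    have h3 := ih (fun n => ((n : ℂ) - m) • w n) (fun n hn => by
      rw [map_smul, hw n (Finset.mem_insert_of_mem hn), smul_comm]) h1
    have h4 : ∀ n ∈ F, w n ∈ S := by
      intro n hn
      have h5 : (n : ℂ) - m ≠ 0 := by
        rw [sub_ne_zero]
        intro h
        have : n = m := by exact_mod_cast h
        exact hm (this ▸ hn)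
      have h6 := S.smul_mem ((n : ℂ) - m)⁻¹ (h3 n hn)
      rwa [smul_smul, inv_mul_cancel₀ h5, one_smul] at h6
    intro n hn
    rcases Finset.mem_insert.1 hn with rfl | hn
    · have h7 := S.sub_mem hs (S.sum_mem h4)
      rwa [add_sub_cancel_right] at h7
    · exact h4 n hn

theorem eig_res (T : Module.End ℂ L) (S : Submodule ℂ L) (T' : Module.End ℂ S)
    (hT : ∀ u : S, ((T' u : S) : L) = T u) (u : S)
    (hu : (u : L) ∈ ⨆ n : ℤ, Module.End.eigenspace T (n : ℂ)) :
    u ∈ ⨆ n : ℤ, Module.End.eigenspace T' (n : ℂ) := by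
  classical
  rw [Submodule.mem_iSup_iff_exists_finsupp] at hu
  obtain ⟨w, hw, hsum⟩ := hu
  have hS : ∀ u ∈ S, T u ∈ S := fun u hu => by
    rw [← hT ⟨u, hu⟩]
    exact (T' ⟨u, hu⟩).2
  have h1 : ∀ n ∈ w.support, T (w n) = (n : ℂ) • w n := fun n _ =>
    Module.End.mem_eigenspace_iff.1 (hw n)
  have h2 : ∑ n ∈ w.support, w n ∈ S := by
    have h3 : ∑ n ∈ w.support, w n = (u : L) := hsum
    rw [h3]
    exact u.2
  have h4 := eig_comp T S hS w.support (fun n => w n) h1 h2
  have h5 : u = ∑ n ∈ w.support.attach, (⟨w n.1, h4 n.1 n.2⟩ : S) := by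
    apply Subtype.ext
    rw [AddSubmonoidClass.coe_finsetSum]
    have h3 : ∑ n ∈ w.support, w n = (u : L) := hsum
    rw [← h3]
    exact (Finset.sum_attach w.support (fun n => w n)).symm
  rw [h5]
  refine Submodule.sum_mem _ fun n _ => Submodule.mem_iSup_of_mem n.1 ?_
  rw [Module.End.mem_eigenspace_iff]
  apply Subtype.ext
  rw [hT]
  exact h1 n.1 n.2

end Eig

section Equi

variable {ι : Type} [Fintype ι] [DecidableEq ι] {e : ι → ℤ} {L : Type} [AddCommGroup L] [Module ℂ L]

theorem res_xo (W : WMod (Co e) L) (S : Submodule ℂ L) (hS : W.Stable S) (a b : ι) (u : S) :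
    (((W.res S hS).xo a b u : S) : L) = W.xo a b u := by
  by_cases h : e a = e b + 1
  · rw [WMod.xo, WMod.xo, dif_pos h, dif_pos h]
    rfl
  · rw [WMod.xo, WMod.xo, dif_neg h, dif_neg h]
    rfl

theorem res_dO (W : WMod (Co e) L) (S : Submodule ℂ L) (hS : W.Stable S) (a b : ι) (u : S) :
    (((W.res S hS).dO a b u : S) : L) = W.dO a b u := by
  by_cases h : e a = e b + 1
  · rw [WMod.dO, WMod.dO, dif_pos h, dif_pos h]
    rfl
  · rw [WMod.dO, WMod.dO, dif_neg h, dif_neg h]
    rfl

theorem res_G (W : WMod (Co e) L) (S : Submodule ℂ L) (hS : W.Stable S) (a b : ι) (u : S) :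
    (((W.res S hS).G a b u : S) : L) = W.G a b u := by
  simp only [WMod.G, LinearMap.sub_apply, LinearMap.sum_apply, Module.End.mul_apply,
    AddSubgroupClass.coe_sub, AddSubmonoidClass.coe_finsetSum, res_xo, res_dO]

/-- A submodule which consists of integrable vectors is equivariant. -/
theorem equivariant_res (W : WMod (Co e) L) (S : Submodule ℂ L) (hS : W.Stable S)
    (h : ∀ u ∈ S, W.Good u) : (W.res S hS).Equivariant := by
  refine ⟨fun a u => ?_, fun a b hab he u => ?_⟩
  · exact eig_res (W.G a a) S _ (fun u => res_G W S hS a a u) u ((h u u.2).1 a)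
  · obtain ⟨k, hk⟩ := (h u u.2).2 a b hab he
    refine ⟨k, ?_⟩
    have h1 : ∀ k : ℕ, (((((W.res S hS).G a b) ^ k) u : S) : L) = (W.G a b ^ k) u := by
      intro k
      induction k with
      | zero => rfl
      | succ k ih => rw [pow_succ', pow_succ', Module.End.mul_apply, Module.End.mul_apply, res_G, ih]
    exact Subtype.ext ((h1 k).trans hk)

/-- Submodules of the module generated by a semi-invariant vector are equivariant. -/
theorem equivariant_of_semi (W : WMod (Co e) L) {v : L}
    (h0 : ∀ a, ∃ n : ℤ, W.G a a v = (n : ℂ) • v) (h1 : ∀ a b, a ≠ b → e a = e b → W.G a b v = 0)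
    (S : Submodule ℂ L) (hS : W.Stable S) (hle : S ≤ W.gen v) : (W.res S hS).Equivariant := by
  obtain ⟨F, hF, hF'⟩ := p_GOO ι e L W
  refine equivariant_res W S hS fun u hu => (hF' u).1 (W.gen_le hF ((hF' v).2 ?_) (hle hu))
  refine ⟨fun a => ?_, fun a b hab he => ⟨1, by rw [pow_one]; exact h1 a b hab he⟩⟩
  obtain ⟨n, hn⟩ := h0 a
  exact Submodule.mem_iSup_of_mem n (Module.End.mem_eigenspace_iff.2 hn)

end Equi

/-! ## A chart with a polynomial inverse is onto -/

section Onto

variable {τ κ : Type} [Fintype τ] [DecidableEq τ] [Fintype κ] [DecidableEq κ]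
variable {q : MvPolynomial τ ℂ} {Y : κ → MvPolynomial τ ℂ} {A : κ → τ → MvPolynomial τ ℂ}

theorem totalDegree_pderiv_lt (k : κ) (g : MvPolynomial κ ℂ) (hg : g.totalDegree ≠ 0) :
    (pderiv k g).totalDegree < g.totalDegree := by
  by_cases h : pderiv k g = 0
  · rw [h, totalDegree_zero]; omega
  · obtain ⟨m, hm⟩ : ∃ m, g.totalDegree = m + 1 := Nat.exists_eq_succ_of_ne_zero hg
    have := totalDegree_pderiv_le k g (k := m) (by omega)
    omega

theorem Coord.bind_inj (h : Coord q Y A) (hq : q ≠ 0) : Function.Injective (bind₁ Y) := by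
  rw [injective_iff_map_eq_zero]
  have key : ∀ (n : ℕ) (g : MvPolynomial κ ℂ), g.totalDegree ≤ n → bind₁ Y g = 0 → g = 0 := by
    intro n
    induction n with
    | zero =>
      intro g hg h0
      rw [Nat.le_zero, totalDegree_eq_zero_iff_eq_C] at hg
      rw [hg, bind₁_C_right, C_eq_zero] at h0
      rw [hg, h0, C_0]
    | succ n ih =>
      intro g hg h0
      have h1 : ∀ k, pderiv k g = 0 := by
        intro k
        refine ih _ ?_ ?_
        · by_cases h2 : g.totalDegree = 0
          · rw [totalDegree_eq_zero_iff_eq_C] at h2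
            rw [h2, pderiv_C, totalDegree_zero]
            omega
          · have := totalDegree_pderiv_lt k g h2
            omega
        · have h3 : ∀ j, ∑ l, bind₁ Y (pderiv l g) * pderiv j (Y l) = 0 := by
            intro j
            rw [← pderiv_bind, h0, map_zero]
          have h4 : ∑ j, A k j * ∑ l, bind₁ Y (pderiv l g) * pderiv j (Y l) = 0 :=
            Finset.sum_eq_zero fun j _ => by rw [h3 j, mul_zero]
          have h5 : ∑ j, A k j * ∑ l, bind₁ Y (pderiv l g) * pderiv j (Y l) =
              q * bind₁ Y (pderiv k g) := by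
            simp only [Finset.mul_sum]
            rw [Finset.sum_comm]
            have h6 : ∀ l, ∑ j, A k j * (bind₁ Y (pderiv l g) * pderiv j (Y l)) =
                (if k = l then q else 0) * bind₁ Y (pderiv l g) := by
              intro l
              rw [← h.left k l, Finset.sum_mul]
              exact Finset.sum_congr rfl fun j _ => by ring
            simp only [h6, ite_mul, zero_mul]
            rw [Finset.sum_ite_eq Finset.univ k, if_pos (Finset.mem_univ k)]
          rw [h5] at h4
          exact (mul_eq_zero.1 h4).resolve_left hq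
      by_contra hg0
      have h2 : g.totalDegree = 0 := by
        by_contra h3
        obtain ⟨k, hk⟩ := exists_pderiv_ne g h3
        exact hk (h1 k)
      rw [totalDegree_eq_zero_iff_eq_C] at h2
      rw [h2, bind₁_C_right, C_eq_zero] at h0
      exact hg0 (by rw [h2, h0, C_0])
  exact fun g h0 => key _ g le_rfl h0

end Onto

end Pool.DM
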