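import Pool.Agent.Work.MP_c20ce7_bE.Src
import Pool.Agent.Work.MP_c20ce7_dm77.ChartC
import Pool.Agent.Work.MP_c20ce7_s47.S1

set_option autoImplicit false
set_option linter.unusedSectionVars false
set_option linter.unusedSimpArgs false

/-!
# BASE, source side: the assembly, second step (helper42)

The chart (helper77) and the minors (helper47) are plugged in.
-/

open MvPolynomial

noncomputable section

namespace Pool.DM

/-- The vector is semi-invariant: the infinitesimal action of the basis changes, written on `V`. -/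
def SemiOn {B : Type} [AddCommGroup B] [Module ℂ B] (W : WMod Tau B) (V : B) : Prop :=
  ∀ W' : WMod (Co e0) B, (∀ k, W'.x (X k) = W.x (Ych k)) →
    (∀ j, W.d (X j) = ∑ k, W.x (pderiv j (Ych k)) * W'.d (X k)) →
    ∃ w : I0 → ℤ, ∀ a b, e0 a = e0 b → W'.G a b V = (if a = b then (w a : ℂ) else 0) • V

theorem src_of2 {B : Type} [AddCommGroup B] [Module ℂ B] (W : WMod Tau B) (hq : Function.Bijective (W.x q0))
    (hGr : W.Growth) (V : B) (hV : V ≠ 0) (hrel : KSRel (W.annI V)) (hsem : SemiOn W V)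
    (hblk : ∀ N : Bk, (N = .p ∨ N = .r ∨ N = .ze ∨ N = .ka) → ∀ u, (∀ s t, W.x (X (N, s, t)) u = 0) → u = 0)
    (hb : ∀ η : Tau → ℂ, (∀ v : Tau, ¬ BS3.isSl v.1 → η v = 0) → W.InCh BS3.bp0 η) : Stmt_SRC := by
  obtain ⟨w, hw⟩ := hsem (W.coord (bij_FK W hq) coordK)
    (fun k => by rw [WMod.coord_x, bind₁_X_right]) (fun j => W.coord_old _ _ j)
  refine src_of W FK AK (bij_FK W hq) coordK card_eqK hGr hq.1 ?_ V hV ?_ ?_ ?_ hblk hb
  · intro h0
    have h1 := congrArg (eval BS3.bp0) FK_cof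
    rw [map_mul, h0, zero_mul, map_pow, BS3.q0_bp0, one_pow] at h1
    exact zero_ne_one h1
  · intro P hP
    exact p_S1 _ hrel P hP
  · intro a
    refine ⟨w a, ?_⟩
    rw [hw a a rfl, if_pos rfl]
  · intro a b hab he
    rw [hw a b he, if_neg hab, zero_smul]

end Pool.DM
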