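import Pool.Agent.Work.MP_c20ce7_bE.Rel

set_option autoImplicit false
set_option linter.unusedSectionVars false
set_option linter.unusedSimpArgs false

/-!
# BASE, source side: the open conditions (helper42)

An ideal which contains all polynomials of one of the families `ksOpen` contains a whole block of the slice
variables (or one of the determinants).
-/

open MvPolynomial

noncomputable section

namespace Pool.DM

/-- The blocks of a matrix. -/
def bk (A : Matrix I0 I0 Ach) (i j : Fin 8) : Matrix (Fin 2) (Fin 2) Ach := fun s t => A (i, s) (j, t)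

theorem bk_mul (A B : Matrix I0 I0 Ach) (i j : Fin 8) : bk (A * B) i j = ∑ k, bk A i k * bk B k j := by
  ext1 s t
  rw [bk, Matrix.mul_apply, Fintype.sum_prod_type, Matrix.sum_apply]
  rfl

theorem bk_YM (i j : Fin 8) : bk YM i j = YB i j := rfl

theorem YB_10 : YB 1 0 = mm .a := rfl
theorem YB_20 : YB 2 0 = mm .B * mm .a := rfl
theorem YB_31 : YB 3 1 = mm .p - mm .q * mm .B - mm .V * mm .r := rfl
theorem YB_32 : YB 3 2 = mm .q := rfl
theorem YB_41 : YB 4 1 = mm .S * (mm .p - mm .q * mm .B - mm .V * mm .r) + mm .r := rfl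
theorem YB_42 : YB 4 2 = mm .S * mm .q := rfl
theorem YB_53 : YB 5 3 = mm .u - mm .u * mm .V * mm .S := rfl
theorem YB_54 : YB 5 4 = mm .u * mm .V := rfl
theorem YB_63 : YB 6 3 = mm .W * (mm .u - mm .u * mm .V * mm .S) - (mm .l).adjugate * mm .ze * mm .S := rfl
theorem YB_64 : YB 6 4 = mm .W * (mm .u * mm .V) + (mm .l).adjugate * mm .ze := rfl
theorem YB_75 : YB 7 5 = mm .ka * (mm .u).adjugate - mm .l * mm .W := rfl
theorem YB_76 : YB 7 6 = mm .l := rfl

/-- A product of two blocks in a sum over the middle index which has only two nonzero terms. -/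
theorem sum_two (F : Fin 8 → Matrix (Fin 2) (Fin 2) Ach) (a b : Fin 8) (hab : a ≠ b)
    (h : ∀ k, k ≠ a → k ≠ b → F k = 0) : ∑ k, F k = F a + F b := by
  rw [← Finset.add_sum_erase _ _ (Finset.mem_univ a), ← Finset.add_sum_erase _ F
    (Finset.mem_erase.2 ⟨hab.symm, Finset.mem_univ b⟩), Finset.sum_eq_zero, add_zero]
  intro k hk
  simp only [Finset.mem_erase, Finset.mem_univ, and_true] at hk
  exact h k hk.2 hk.1

theorem YM2_30 : bk (YM ^ 2) 3 0 = (mm .p - mm .V * mm .r) * mm .a := by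
  rw [pow_two, bk_mul, sum_two _ 1 2 (by decide)]
  · rw [bk_YM, bk_YM, bk_YM, bk_YM, YB_31, YB_10, YB_32, YB_20]
    noncomm_ring
  · intro k h1 h2
    rw [bk_YM, bk_YM]
    fin_cases k <;> first | exact absurd rfl h1 | exact absurd rfl h2 | (rw [show YB 3 _ = 0 from rfl, zero_mul])

theorem YM2_40 : bk (YM ^ 2) 4 0 = (mm .S * (mm .p - mm .V * mm .r) + mm .r) * mm .a := by
  rw [pow_two, bk_mul, sum_two _ 1 2 (by decide)]
  · rw [bk_YM, bk_YM, bk_YM, bk_YM, YB_41, YB_10, YB_42, YB_20]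
    noncomm_ring
  · intro k h1 h2
    rw [bk_YM, bk_YM]
    fin_cases k <;> first | exact absurd rfl h1 | exact absurd rfl h2 | (rw [show YB 4 _ = 0 from rfl, zero_mul])

theorem YM2_52 : bk (YM ^ 2) 5 2 = mm .u * mm .q := by
  rw [pow_two, bk_mul, sum_two _ 3 4 (by decide)]
  · rw [bk_YM, bk_YM, bk_YM, bk_YM, YB_53, YB_32, YB_54, YB_42]
    noncomm_ring
  · intro k h1 h2
    rw [bk_YM, bk_YM]
    fin_cases k <;> first | exact absurd rfl h1 | exact absurd rfl h2 | (rw [show YB 5 _ = 0 from rfl, zero_mul])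

theorem YM2_62 : bk (YM ^ 2) 6 2 = mm .W * (mm .u * mm .q) := by
  rw [pow_two, bk_mul, sum_two _ 3 4 (by decide)]
  · rw [bk_YM, bk_YM, bk_YM, bk_YM, YB_63, YB_32, YB_64, YB_42]
    noncomm_ring
  · intro k h1 h2
    rw [bk_YM, bk_YM]
    fin_cases k <;> first | exact absurd rfl h1 | exact absurd rfl h2 | (rw [show YB 6 _ = 0 from rfl, zero_mul])

theorem YM3_50 : bk (YM ^ 3) 5 0 = mm .u * mm .p * mm .a := by
  rw [pow_succ' YM 2, bk_mul, sum_two _ 3 4 (by decide)]
  · rw [bk_YM, bk_YM, YB_53, YB_54, YM2_30, YM2_40]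
    noncomm_ring
  · intro k h1 h2
    rw [bk_YM]
    fin_cases k <;> first | exact absurd rfl h1 | exact absurd rfl h2 | (rw [show YB 5 _ = 0 from rfl, zero_mul])

theorem YM3_72 : bk (YM ^ 3) 7 2 = (mm .u).det • (mm .ka * mm .q) := by
  rw [pow_succ' YM 2, bk_mul, sum_two _ 5 6 (by decide)]
  · rw [bk_YM, bk_YM, YB_75, YB_76, YM2_52, YM2_62]
    have h1 : (mm .ka * (mm .u).adjugate - mm .l * mm .W) * (mm .u * mm .q) + mm .l * (mm .W * (mm .u * mm .q)) =
        mm .ka * ((mm .u).adjugate * mm .u) * mm .q := by noncomm_ring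
    rw [h1, Matrix.adjugate_mul, mul_smul_comm, mul_one, smul_mul_assoc]
  · intro k h1 h2
    rw [bk_YM]
    fin_cases k <;> first | exact absurd rfl h1 | exact absurd rfl h2 | (rw [show YB 7 _ = 0 from rfl, zero_mul])

/-- The determinants can be cancelled modulo the ideal. -/
structure Canc (P : Ideal Ach) : Prop where
  a : ∀ f, (mm .a).det * f ∈ P → f ∈ P
  q : ∀ f, (mm .q).det * f ∈ P → f ∈ P
  u : ∀ f, (mm .u).det * f ∈ P → f ∈ P
  l : ∀ f, (mm .l).det * f ∈ P → f ∈ P
  one : (1 : Ach) ∉ P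

/-- All entries of the matrix are in the ideal. -/
def MIn (P : Ideal Ach) (M : Matrix (Fin 2) (Fin 2) Ach) : Prop := ∀ s t, M s t ∈ P

theorem MIn.mul_left {P : Ideal Ach} {M : Matrix (Fin 2) (Fin 2) Ach} (h : MIn P M)
    (A : Matrix (Fin 2) (Fin 2) Ach) : MIn P (A * M) := by
  intro s t
  rw [Matrix.mul_apply]
  exact P.sum_mem fun k _ => P.mul_mem_left _ (h k t)

theorem MIn.mul_right {P : Ideal Ach} {M : Matrix (Fin 2) (Fin 2) Ach} (h : MIn P M)
    (A : Matrix (Fin 2) (Fin 2) Ach) : MIn P (M * A) := by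
  intro s t
  rw [Matrix.mul_apply]
  exact P.sum_mem fun k _ => P.mul_mem_right _ (h s k)

theorem MIn.add {P : Ideal Ach} {M N : Matrix (Fin 2) (Fin 2) Ach} (h : MIn P M) (h' : MIn P N) :
    MIn P (M + N) := fun s t => P.add_mem (h s t) (h' s t)

theorem MIn.smul_canc {P : Ideal Ach} {M : Matrix (Fin 2) (Fin 2) Ach} (c : Ach)
    (hc : ∀ f, c * f ∈ P → f ∈ P) (h : MIn P (c • M)) : MIn P M := fun s t => hc _ (h s t)

theorem minor_of {n : ℕ} {j : ℤ} {k : ℕ} {P : Ideal Ach} (h : ∀ Q ∈ minorsG e0 n j k, bind₁ Ych Q ∈ P)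
    (f g : Fin k → I0) (hf : ∀ l, e0 (f l) = j + n) (hg : ∀ l, e0 (g l) = j) :
    ((YM ^ n).submatrix f g).det ∈ P := by
  rw [← bind_minor]
  exact h _ ⟨f, g, fun l => ⟨hf l, hg l⟩, rfl⟩

theorem opn_p {P : Ideal Ach} (hc : Canc P) (h : ∀ Q ∈ minorsG e0 3 1 1, bind₁ Ych Q ∈ P) :
    MIn P (mm .p) := by
  have h1 : MIn P (mm .u * mm .p * mm .a) := by
    intro s t
    have h2 := minor_of h (fun _ => (5, s)) (fun _ => (0, t)) (fun _ => rfl) (fun _ => rfl)
    rw [Matrix.det_fin_one, Matrix.submatrix_apply] at h2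
    rw [← YM3_50]
    exact h2
  have h3 := (h1.mul_left (mm .u).adjugate).mul_right (mm .a).adjugate
  have h4 : (mm .u).adjugate * (mm .u * mm .p * mm .a) * (mm .a).adjugate =
      (mm .u).det • ((mm .a).det • mm .p) := by
    have h5 : (mm .u).adjugate * (mm .u * mm .p * mm .a) * (mm .a).adjugate =
      ((mm .u).adjugate * mm .u) * mm .p * (mm .a * (mm .a).adjugate) := by noncomm_ring
    rw [h5, Matrix.adjugate_mul, Matrix.mul_adjugate]
    simp only [smul_mul_assoc, mul_smul_comm, one_mul, mul_one]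
    rw [smul_comm]
  rw [h4] at h3
  exact (h3.smul_canc _ hc.u).smul_canc _ hc.a

theorem opn_ka {P : Ideal Ach} (hc : Canc P) (h : ∀ Q ∈ minorsG e0 3 2 1, bind₁ Ych Q ∈ P) :
    MIn P (mm .ka) := by
  have h1 : MIn P ((mm .u).det • (mm .ka * mm .q)) := by
    intro s t
    have h2 := minor_of h (fun _ => (7, s)) (fun _ => (2, t)) (fun _ => rfl) (fun _ => rfl)
    rw [Matrix.det_fin_one, Matrix.submatrix_apply] at h2
    rw [← YM3_72]
    exact h2
  have h3 := (h1.smul_canc _ hc.u).mul_right (mm .q).adjugate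
  rw [mul_assoc, Matrix.mul_adjugate, mul_smul_comm, mul_one] at h3
  exact h3.smul_canc _ hc.q

theorem YM_apply (i j : Fin 8) (s t : Fin 2) : YM (i, s) (j, t) = YB i j s t := rfl

theorem opn_r {P : Ideal Ach} (hc : Canc P) (h : ∀ Q ∈ minorsG e0 1 2 3, bind₁ Ych Q ∈ P) :
    MIn P (mm .r) := by
  intro i j
  have h2 := minor_of h ![(3, 0), (3, 1), (4, i)] ![(1, j), (2, 0), (2, 1)]
    (by intro l; fin_cases l <;> rfl) (by intro l; fin_cases l <;> rfl)
  refine hc.q _ ?_
  convert h2 using 1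
  rw [pow_one, Matrix.det_fin_three]
  simp only [Matrix.submatrix_apply, Matrix.cons_val_zero, Matrix.cons_val_one, Matrix.cons_val, YM_apply, YB_31,
    YB_32, YB_41, YB_42]
  generalize mm .p - mm .q * mm .B - mm .V * mm .r = M
  rw [Matrix.det_fin_two]
  simp only [Matrix.add_apply, Matrix.mul_apply, Fin.sum_univ_two]
  ring

theorem opn_ze {P : Ideal Ach} (hc : Canc P) (h : ∀ Q ∈ minorsG e0 1 3 3, bind₁ Ych Q ∈ P) :
    MIn P (mm .ze) := by
  have key : ∀ Z : Matrix (Fin 2) (Fin 2) Ach, (mm .l).adjugate * mm .ze = Z → MIn P Z := by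
    intro Z hZ i j
    have h2 := fun j : Fin 2 => minor_of h ![(5, 0), (5, 1), (6, i)] ![(3, 0), (3, 1), (4, j)]
      (by intro l; fin_cases l <;> rfl) (by intro l; fin_cases l <;> rfl)
    have h3 := fun j : Fin 2 => minor_of h ![(5, 0), (5, 1), (6, i)] ![(3, j), (4, 0), (4, 1)]
      (by intro l; fin_cases l <;> rfl) (by intro l; fin_cases l <;> rfl)
    refine hc.u _ ?_
    have h4 : ∀ j : Fin 2, ((YM ^ 1).submatrix ![(5, 0), (5, 1), (6, i)] ![(3, 0), (3, 1), (4, j)]).det =
        (mm .u).det * (Z * (1 - mm .S * mm .V).adjugate) i j := by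
      intro j
      rw [pow_one, Matrix.det_fin_three]
      simp only [Matrix.submatrix_apply, Matrix.cons_val_zero, Matrix.cons_val_one, Matrix.cons_val, YM_apply, YB_53,
        YB_54, YB_63, YB_64, hZ]
      rw [Matrix.det_fin_two, Matrix.adjugate_fin_two]
      fin_cases j <;>
      (simp only [Matrix.add_apply, Matrix.sub_apply, Matrix.mul_apply, Fin.sum_univ_two, Matrix.of_apply,
        Matrix.cons_val_zero, Matrix.cons_val_one, Matrix.cons_val, Matrix.one_apply, Fin.zero_eta, Fin.mk_one,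
        if_true, if_false, zero_ne_one, one_ne_zero, Matrix.cons_val', Matrix.cons_val_fin_one, Matrix.neg_apply]
       ring)
    have h5 : ∀ j : Fin 2, ((YM ^ 1).submatrix ![(5, 0), (5, 1), (6, i)] ![(3, j), (4, 0), (4, 1)]).det =
        - ((mm .u).det * (Z * (mm .V).adjugate) i j) := by
      intro j
      rw [pow_one, Matrix.det_fin_three]
      simp only [Matrix.submatrix_apply, Matrix.cons_val_zero, Matrix.cons_val_one, Matrix.cons_val, YM_apply, YB_53,
        YB_54, YB_63, YB_64, hZ]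
      rw [Matrix.det_fin_two, Matrix.adjugate_fin_two]
      fin_cases j <;>
      (simp only [Matrix.add_apply, Matrix.sub_apply, Matrix.mul_apply, Fin.sum_univ_two, Matrix.of_apply,
        Matrix.cons_val_zero, Matrix.cons_val_one, Matrix.cons_val, Matrix.one_apply, Fin.zero_eta, Fin.mk_one,
        if_true, if_false, zero_ne_one, one_ne_zero, Matrix.cons_val', Matrix.cons_val_fin_one, Matrix.neg_apply]
       ring)
    have h6 : ∀ j : Fin 2, (mm .u).det * (Z * (1 - mm .S * mm .V).adjugate) i j ∈ P := fun j => by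
      rw [← h4 j]; exact h2 j
    have h7 : ∀ j : Fin 2, (mm .u).det * (Z * (mm .V).adjugate) i j ∈ P := fun j => by
      have := h3 j
      rw [h5 j] at this
      exact (neg_mem_iff).1 this
    have h8 : (mm .u).det * Z i j = (mm .u).det * (Z * (1 - mm .S * mm .V).adjugate) i j +
        ∑ k, ((mm .u).det * (Z * (mm .V).adjugate) i k) * (mm .S).adjugate k j := by
      rw [Matrix.adjugate_fin_two, Matrix.adjugate_fin_two, Matrix.adjugate_fin_two]
      fin_cases j <;>
      (simp only [Matrix.add_apply, Matrix.sub_apply, Matrix.mul_apply, Fin.sum_univ_two, Matrix.of_apply,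
        Matrix.cons_val_zero, Matrix.cons_val_one, Matrix.cons_val, Matrix.one_apply, Fin.zero_eta, Fin.mk_one,
        if_true, if_false, zero_ne_one, one_ne_zero, Matrix.cons_val', Matrix.cons_val_fin_one, Matrix.neg_apply]
       ring)
    rw [h8]
    exact P.add_mem (h6 j) (P.sum_mem fun k _ => P.mul_mem_right _ (h7 k))
  have h9 := (key _ rfl).mul_left (mm .l)
  rw [← mul_assoc, Matrix.mul_adjugate, smul_mul_assoc, one_mul] at h9
  exact h9.smul_canc _ hc.l

/-- The `2`-minor `det a`. -/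
theorem opn_a {P : Ideal Ach} (hc : Canc P) : ¬ ∀ Q ∈ minorsG e0 1 1 2, bind₁ Ych Q ∈ P := by
  intro h
  have h2 := minor_of h ![(1, 0), (1, 1)] ![(0, 0), (0, 1)]
    (by intro l; fin_cases l <;> rfl) (by intro l; fin_cases l <;> rfl)
  refine hc.one (hc.a _ ?_)
  convert h2 using 1
  rw [pow_one, Matrix.det_fin_two, Matrix.det_fin_two, mul_one]
  rfl

/-- The `2`-minor `det l`. -/
theorem opn_l {P : Ideal Ach} (hc : Canc P) : ¬ ∀ Q ∈ minorsG e0 1 4 2, bind₁ Ych Q ∈ P := by
  intro h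
  have h2 := minor_of h ![(7, 0), (7, 1)] ![(6, 0), (6, 1)]
    (by intro l; fin_cases l <;> rfl) (by intro l; fin_cases l <;> rfl)
  refine hc.one (hc.l _ ?_)
  convert h2 using 1
  rw [pow_one, Matrix.det_fin_two, Matrix.det_fin_two, mul_one]
  rfl

/-- **S2.** If no block of the slice variables is contained in the ideal, every family of `ksOpen` has a member
outside of the ideal. -/
theorem opn {P : Ideal Ach} (hc : Canc P) (hp : ¬ MIn P (mm .p)) (hr : ¬ MIn P (mm .r))
    (hka : ¬ MIn P (mm .ka)) (hze : ¬ MIn P (mm .ze)) (k : Fin 6) :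
    ∃ Q ∈ ksOpen e0 k, bind₁ Ych Q ∉ P := by
  by_contra hn
  push Not at hn
  fin_cases k
  · exact opn_a hc hn
  · exact hr (opn_r hc hn)
  · exact hze (opn_ze hc hn)
  · exact opn_l hc hn
  · exact hp (opn_p hc hn)
  · exact hka (opn_ka hc hn)

end Pool.DM
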