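import Pool.Agent.Work.MP_c20ce7_tg.Interface
import Pool.Agent.Work.MP_c20ce7_dm82.ChartDefs

set_option autoImplicit false
set_option linter.unusedSectionVars false
set_option linter.unusedSimpArgs false

/-!
# BASE, source side: the relations of the slice and the minors of the generic matrix (helper42)
-/

open MvPolynomial

noncomputable section

namespace Pool.DM

/-- The relations of the Kashiwara-Saito cone: `ζ r = 0`, `κ p = 0`, `(p ; r)` and `(κ, ζ)` have rank one. -/
structure KSRel (I : Ideal Ach) : Prop where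
  zr : ∀ s t, (mm .ze * mm .r) s t ∈ I
  kp : ∀ s t, (mm .ka * mm .p) s t ∈ I
  pr : ∀ N N' : Bk, (N = .p ∨ N = .r) → (N' = .p ∨ N' = .r) → ∀ i i' s t : Fin 2,
    mm N i s * mm N' i' t - mm N i t * mm N' i' s ∈ I
  kz : ∀ N N' : Bk, (N = .ka ∨ N = .ze) → (N' = .ka ∨ N' = .ze) → ∀ j j' s t : Fin 2,
    mm N s j * mm N' t j' - mm N t j * mm N' s j' ∈ I

/-- The parametrized point as a matrix over the basis. -/
def YM : Matrix I0 I0 Ach := fun a b => YB a.1 b.1 a.2 b.2

theorem YB_zero (i j : Fin 8) (h : dg0 i ≠ dg0 j + 1) : YB i j = 0 := by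
  fin_cases i <;> fin_cases j <;> first | rfl | (exfalso; apply h; rfl)

theorem genM_map : (genM e0).map (bind₁ Ych) = YM := by
  ext1 a b
  rw [Matrix.map_apply]
  by_cases h : e0 a = e0 b + 1
  · rw [genM, dif_pos h, bind₁_X_right]
    rfl
  · rw [genM, dif_neg h, map_zero, YM, YB_zero _ _ h]
    rfl

/-- The minors of the generic matrix in the chart. -/
theorem bind_minor (n k : ℕ) (f g : Fin k → I0) :
    bind₁ Ych ((genM e0 ^ n).submatrix f g).det = ((YM ^ n).submatrix f g).det := by
  have h1 : (genM e0 ^ n).map (bind₁ Ych) = YM ^ n := by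
    rw [← genM_map]
    exact (map_pow (AlgHom.mapMatrix (bind₁ Ych)) (genM e0) n)
  rw [← h1, AlgHom.map_det]
  rfl

/-- **S1.** The polynomials of `ksClosed` are in the ideal of the relations. -/
def Stmt_S1 : Prop := ∀ I : Ideal Ach, KSRel I → ∀ P ∈ ksClosed e0, bind₁ Ych P ∈ I

end Pool.DM
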