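import Pool.Agent.Work.MP_c20ce7_bE.Gen
import Pool.Agent.Work.MP_c20ce7_bE.Opn
import Pool.Agent.Work.MP_c20ce7_bS.S3
import Pool.Agent.Work.MP_c20ce7_dm29.EXP
import Pool.Agent.Work.MP_c20ce7_dm70.S7
import Pool.Agent.Work.MP_c20ce7_bA.ModDefs

set_option autoImplicit false
set_option linter.unusedSectionVars false
set_option linter.unusedSimpArgs false

/-!
# BASE, source side: the assembly (helper42)

`src_of`: the statement `Stmt_SRC` from a module on the chart with a suitable vector.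
-/

open MvPolynomial

noncomputable section

namespace Pool.DM

section Nil

variable {σ : Type} [Fintype σ] [DecidableEq σ] {L : Type} [AddCommGroup L] [Module ℂ L]

/-- The ideal of the functions which are locally nilpotent on the subspace `S`. -/
def WMod.nilI (W : WMod σ L) (S : Submodule ℂ L) : Ideal (MvPolynomial σ ℂ) :=
  ⨅ u : S, (W.annI (u : L)).radical

theorem WMod.mem_nilI (W : WMod σ L) (S : Submodule ℂ L) (f : MvPolynomial σ ℂ) :
    f ∈ W.nilI S ↔ ∀ u ∈ S, ∃ k : ℕ, W.x (f ^ k) u = 0 := by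
  rw [WMod.nilI, Submodule.mem_iInf]
  simp only [Ideal.mem_radical_iff, WMod.mem_annI, Subtype.forall]

theorem WMod.nilI_inj (W : WMod σ L) (S : Submodule ℂ L) {q f : MvPolynomial σ ℂ}
    (hq : Function.Injective (W.x q)) (h : q * f ∈ W.nilI S) : f ∈ W.nilI S := by
  rw [WMod.mem_nilI] at h ⊢
  intro u hu
  obtain ⟨k, hk⟩ := h u hu
  refine ⟨k, W.x_pow_inj hq k ?_⟩
  rw [map_zero, ← Module.End.mul_apply, ← map_mul, ← mul_pow]
  exact hk

theorem WMod.one_notMem_nilI (W : WMod σ L) (S : Submodule ℂ L) (hS : S ≠ ⊥) : (1 : MvPolynomial σ ℂ) ∉ W.nilI S := by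
  intro h
  rw [WMod.mem_nilI] at h
  obtain ⟨u, hu, hu0⟩ := Submodule.exists_mem_ne_zero_of_ne_bot hS
  obtain ⟨k, hk⟩ := h u hu
  rw [one_pow, map_one] at hk
  exact hu0 hk

/-- Finitely many functions which are nilpotent at `u` kill a nonzero vector. -/
theorem WMod.exists_killed_at (W : WMod σ L) (T : Finset (MvPolynomial σ ℂ)) (u : L) (hu : u ≠ 0) :
    (∀ f ∈ T, ∃ k : ℕ, W.x (f ^ k) u = 0) → ∃ g : MvPolynomial σ ℂ, W.x g u ≠ 0 ∧
      ∀ f ∈ T, W.x f (W.x g u) = 0 := by
  induction T using Finset.induction_on with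
  | empty =>
    intro _
    exact ⟨1, by rw [map_one]; exact hu, fun f hf => absurd hf (Finset.notMem_empty f)⟩
  | insert a T ha ih =>
    intro hT
    obtain ⟨g, hg, hT'⟩ := ih (fun f hf => hT f (Finset.mem_insert_of_mem hf))
    have h1 : ∃ k : ℕ, W.x (a ^ k) (W.x g u) = 0 := by
      obtain ⟨k, hk⟩ := hT a (Finset.mem_insert_self a T)
      refine ⟨k, ?_⟩
      rw [← Module.End.mul_apply, ← map_mul, mul_comm, map_mul, Module.End.mul_apply, hk, map_zero]
    classical
    have h2 : Nat.find h1 ≠ 0 := by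
      intro h3
      have := Nat.find_spec h1
      rw [h3, pow_zero, map_one] at this
      exact hg this
    obtain ⟨m, hm⟩ := Nat.exists_eq_succ_of_ne_zero h2
    have h4 : W.x (a ^ m) (W.x g u) ≠ 0 := Nat.find_min h1 (by omega)
    have h5 : W.x (a ^ (m + 1)) (W.x g u) = 0 := by
      have := Nat.find_spec h1
      rwa [hm] at this
    refine ⟨a ^ m * g, ?_, ?_⟩
    · rw [map_mul, Module.End.mul_apply]
      exact h4
    · intro f hf
      rw [map_mul, Module.End.mul_apply]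
      rcases Finset.mem_insert.1 hf with rfl | hf
      · rw [← Module.End.mul_apply, ← map_mul, ← pow_succ']
        exact h5
      · rw [← Module.End.mul_apply, ← map_mul, mul_comm, map_mul, Module.End.mul_apply, hT' f hf,
          map_zero]

end Nil

/-- The factors of `q0` act injectively. -/
theorem canc_of {L : Type} [AddCommGroup L] [Module ℂ L] (W : WMod Tau L) (h : Function.Injective (W.x q0))
    (S : Submodule ℂ L) (hS : S ≠ ⊥) : Canc (W.nilI S) := by
  have key : ∀ f g : Ach, q0 = g * f → Function.Injective (W.x f) := by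
    intro f g hfg
    rw [hfg, map_mul] at h
    exact Function.Injective.of_comp (f := W.x g) h
  refine ⟨fun f => W.nilI_inj S (key _ ((mm .q).det * (mm .u).det * (mm .l).det) ?_),
    fun f => W.nilI_inj S (key _ ((mm .a).det * (mm .u).det * (mm .l).det) ?_),
    fun f => W.nilI_inj S (key _ ((mm .a).det * (mm .q).det * (mm .l).det) ?_),
    fun f => W.nilI_inj S (key _ ((mm .a).det * (mm .q).det * (mm .u).det) ?_), W.one_notMem_nilI S hS⟩ <;>
  · unfold q0
    ring

/-- A block of variables which is nilpotent on `S` kills a nonzero vector. -/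
theorem not_mIn {L : Type} [AddCommGroup L] [Module ℂ L] (W : WMod Tau L) (S : Submodule ℂ L) (hS : S ≠ ⊥) (N : Bk)
    (h : ∀ u, (∀ s t, W.x (X (N, s, t)) u = 0) → u = 0) : ¬ MIn (W.nilI S) (mm N) := by
  intro hm
  obtain ⟨u, hu, hu0⟩ := Submodule.exists_mem_ne_zero_of_ne_bot hS
  classical
  obtain ⟨g, hg, hg'⟩ := W.exists_killed_at
    (Finset.univ.image fun st : Fin 2 × Fin 2 => (X (N, st.1, st.2) : Ach)) u hu0 (by
      intro f hf
      obtain ⟨st, -, rfl⟩ := Finset.mem_image.1 hf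
      exact (W.mem_nilI S _).1 (hm st.1 st.2) u hu)
  refine hg (h _ fun s t => hg' _ ?_)
  exact Finset.mem_image.2 ⟨(s, t), Finset.mem_univ _, rfl⟩

/-- **The assembly.** -/
theorem src_of {B : Type} [AddCommGroup B] [Module ℂ B] (W : WMod Tau B) (q : Ach) (A : Co e0 → Tau → Ach)
    (hq : Function.Bijective (W.x q)) (h : Coord q Ych A) (hcard : Fintype.card (Co e0) = Fintype.card Tau)
    (hGr : W.Growth) (hq0 : Function.Injective (W.x q0)) (hqp : eval BS3.bp0 q ≠ 0) (V : B) (hV : V ≠ 0)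
    (hS1 : ∀ P ∈ ksClosed e0, W.x (bind₁ Ych P) V = 0)
    (hs0 : ∀ a, ∃ n : ℤ, (W.coord hq h).G a a V = (n : ℂ) • V)
    (hs1 : ∀ a b, a ≠ b → e0 a = e0 b → (W.coord hq h).G a b V = 0)
    (hblk : ∀ N : Bk, (N = .p ∨ N = .r ∨ N = .ze ∨ N = .ka) → ∀ u, (∀ s t, W.x (X (N, s, t)) u = 0) → u = 0)
    (hb : ∀ η : Tau → ℂ, (∀ v : Tau, ¬ BS3.isSl v.1 → η v = 0) → W.InCh BS3.bp0 η) : Stmt_SRC := by
  set U := W.coord hq h with hU
  have hUG : U.Growth := hGr.coord hq h hcard
  obtain ⟨S, hSS, hSle⟩ := U.exists_simple hUG (U.gen V) (U.gen_stable V) (U.gen_ne_bot hV)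
  have hS0 : S ≠ ⊥ := hSS.2.1
  have hx : ∀ g, U.x g = W.x (bind₁ Ych g) := fun g => W.coord_x hq h g
  have hc : Canc (W.nilI S) := canc_of W hq0 S hS0
  refine ⟨I0, inferInstance, inferInstance, e0, S, inferInstance, inferInstance, U.res S hSS.1, BS3.sgM0, BS3.sgN0,
    BS3.boxing_M0, BS3.boxing_N0, hSS.simple, hUG.res S hSS.1, ?_, ?_, ?_, ?_⟩
  · exact equivariant_of_semi U hs0 hs1 S hSS.1 hSle
  · intro P hP
    refine U.locNil_of_gen (v := V) ?_ hSS.1 hSle
    rw [hx]
    exact hS1 P hP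
  · intro k
    obtain ⟨Q, hQ, hQ'⟩ := opn hc (not_mIn W S hS0 .p (hblk .p (by simp))) (not_mIn W S hS0 .r (hblk .r (by simp)))
      (not_mIn W S hS0 .ka (hblk .ka (by simp))) (not_mIn W S hS0 .ze (hblk .ze (by simp))) k
    refine ⟨Q, hQ, fun hn => hQ' ?_⟩
    rw [WMod.mem_nilI]
    intro u hu
    obtain ⟨k, hk⟩ := (locNil_iff _ _).1 hn ⟨u, hu⟩
    refine ⟨k, ?_⟩
    have h1 : U.x (Q ^ k) u = 0 := congrArg Subtype.val hk
    rwa [hx, map_pow] at h1
  · intro ξ hξ
    exact (BS3.inCh_N0 hq h hqp hb ξ hξ).res S hSS.1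

end Pool.DM
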